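import Pool.Agent.Y108.NP.Core
import Pool.Agent.Y520.NP.Stm

/-!
# Block families of test functions
-/

set_option autoImplicit false

open Finset Filter Topology
open scoped ContDiff

namespace Pool.Agent.Y108.NP

open Pool.Agent.H378R2 Pool.Agent.H387R2 Pool.Agent.H387R2.MB Pool.Agent.H362R2.QT

/-- the budget of block `s` -/
noncomputable def bb (s : ℕ) : ℝ := (1 / 2 : ℝ) ^ (s + 1)

/-- the number of functions of block `s` -/
noncomputable def BN (η M0 : ℝ) (s : ℕ) : ℕ := max 1 ⌈4 * gam * M0 / (η * bb s * bb s)⌉₊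

/-- the number of coordinates of block `s` -/
noncomputable def KN (η M0 : ℝ) (s : ℕ) : ℕ := 2 * 2 ^ BN η M0 s

/-- the scale of block `s` -/
noncomputable def uu (η M0 : ℝ) (s : ℕ) : ℝ := η * bb s * bb s / (4 * BN η M0 s * KN η M0 s)

/-- the boundaries of the blocks -/
noncomputable def off (η M0 : ℝ) (s : ℕ) : ℕ := ∑ t ∈ range s, KN η M0 t

theorem bb_pos (s : ℕ) : 0 < bb s := by unfold bb; positivity

theorem bb_le (s : ℕ) : bb s ≤ 1 / 2 := by
  unfold bb
  calc (1 / 2 : ℝ) ^ (s + 1) = (1 / 2) ^ s * (1 / 2) := pow_succ _ _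
    _ ≤ 1 * (1 / 2) := by
        apply mul_le_mul_of_nonneg_right _ (by norm_num)
        exact pow_le_one₀ (by norm_num) (by norm_num)
    _ = 1 / 2 := one_mul _

theorem bb_sum (J : ℕ) : ∑ t : Fin J, bb t ≤ 1 := by
  unfold bb
  rw [Fin.sum_univ_eq_sum_range (fun l => (1 / 2 : ℝ) ^ (l + 1)) J]
  have : ∀ n : ℕ, ∑ l ∈ range n, (1 / 2 : ℝ) ^ (l + 1) = 1 - (1 / 2) ^ n := by
    intro n
    induction n with
    | zero => simp
    | succ n ih => rw [Finset.sum_range_succ, ih]; ring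
  rw [this]
  have : (0 : ℝ) ≤ (1 / 2) ^ J := by positivity
  linarith

theorem BN_pos (η M0 : ℝ) (s : ℕ) : 1 ≤ BN η M0 s := le_max_left _ _

theorem KN_pos (η M0 : ℝ) (s : ℕ) : 1 ≤ KN η M0 s := by
  unfold KN
  have := Nat.one_le_two_pow (n := BN η M0 s)
  omega

theorem off_succ (η M0 : ℝ) (s : ℕ) : off η M0 (s + 1) = off η M0 s + KN η M0 s := by
  unfold off
  exact Finset.sum_range_succ _ _

theorem off_mono (η M0 : ℝ) : StrictMono (off η M0) := by
  apply strictMono_nat_of_lt_succ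
  intro s
  rw [off_succ]
  have := KN_pos η M0 s
  omega

theorem exists_blk (η M0 : ℝ) : ∀ (J i : ℕ), i < off η M0 J →
    ∃ s, s < J ∧ off η M0 s ≤ i ∧ i < off η M0 (s + 1) := by
  intro J
  induction J with
  | zero => intro i hi; simp [off] at hi
  | succ J ih =>
    intro i hi
    by_cases h : i < off η M0 J
    · obtain ⟨s, h1, h2, h3⟩ := ih i h
      exact ⟨s, by omega, h2, h3⟩
    · exact ⟨J, by omega, by omega, hi⟩

theorem uu_pos {η : ℝ} (hη : 0 < η) (M0 : ℝ) (s : ℕ) : 0 < uu η M0 s := by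
  unfold uu
  have h1 := bb_pos s
  have h2 : (0 : ℝ) < BN η M0 s := by exact_mod_cast BN_pos η M0 s
  have h3 : (0 : ℝ) < KN η M0 s := by exact_mod_cast KN_pos η M0 s
  positivity

theorem uu_mul {η : ℝ} (M0 : ℝ) (s : ℕ) :
    uu η M0 s * (4 * BN η M0 s * KN η M0 s) = η * bb s * bb s := by
  unfold uu
  have h2 : (0 : ℝ) < BN η M0 s := by exact_mod_cast BN_pos η M0 s
  have h3 : (0 : ℝ) < KN η M0 s := by exact_mod_cast KN_pos η M0 s
  field_simp

theorem small {η : ℝ} (hη : 0 < η) (hη1 : η < 1) (s : ℕ) : η * bb s * bb s ≤ bb s := by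
  have h1 := bb_pos s
  have h2 := bb_le s
  have h3 : η * bb s ≤ 1 := by
    calc η * bb s ≤ 1 * (1 / 2) := mul_le_mul hη1.le h2 h1.le (by norm_num)
      _ ≤ 1 := by norm_num
  exact mul_le_of_le_one_left h1.le h3

theorem famb : Pool.Agent.Y520.NP.S_FAMB := by
  intro η M0 hη hη1
  classical
  refine ⟨off η M0, off_mono η M0, by simp [off], fun J K0 hJ => ?_⟩
  have hg := gam_pos
  -- index set
  set e : (Σ s : Fin J, Fin (BN η M0 s)) ≃ Fin (∑ s : Fin J, BN η M0 s) := finSigmaFinEquiv with he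
  set B : ℕ := ∑ s : Fin J, BN η M0 s with hB
  let bl : Fin B → Fin J := fun l => (e.symm l).1
  let idx : Fin B → ℕ := fun l => ((e.symm l).2 : ℕ)
  have hidx : ∀ l, idx l < BN η M0 (bl l) := fun l => (e.symm l).2.2
  have hinj : ∀ l l', bl l = bl l' → idx l = idx l' → l = l' := by
    intro l l' h1 h2
    apply e.symm.injective
    have key : ∀ p q : (Σ s : Fin J, Fin (BN η M0 s)), p.1 = q.1 → (p.2 : ℕ) = (q.2 : ℕ) → p = q := by
      rintro ⟨s, k⟩ ⟨s', k'⟩ h1 h2
      simp only at h1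
      subst h1
      simp only at h2
      rw [Fin.ext h2]
    exact key _ _ h1 h2
  let c : Fin B → ℝ := fun l => 2 ^ (idx l + 1) * uu η M0 (bl l)
  have hcpos : ∀ l, 0 < c l := fun l => mul_pos (by positivity) (uu_pos hη M0 _)
  have hcle : ∀ l, c l ≤ bb (bl l) / 8 := by
    intro l
    have h1 : (2 : ℝ) ^ (idx l + 1) ≤ 2 ^ BN η M0 (bl l) :=
      pow_le_pow_right₀ (by norm_num) (by have := hidx l; omega)
    have hu1 := uu_mul (η := η) M0 (bl l)
    have hu0 := uu_pos hη M0 (bl l)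
    have hb := bb_pos (bl l)
    have hb2 := bb_le (bl l)
    have hB1 : (1 : ℝ) ≤ BN η M0 (bl l) := by exact_mod_cast BN_pos η M0 (bl l)
    have hK : (KN η M0 (bl l) : ℝ) = 2 * 2 ^ BN η M0 (bl l) := by unfold KN; push_cast; ring
    have h2 : 2 ^ BN η M0 (bl l) * uu η M0 (bl l) * (8 * BN η M0 (bl l)) = η * bb (bl l) * bb (bl l) := by
      rw [← hu1, hK]; ring
    have h4 : 0 < 2 ^ BN η M0 (bl l) * uu η M0 (bl l) := by positivity
    have h5 : 2 ^ BN η M0 (bl l) * uu η M0 (bl l) * 8 ≤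
        2 ^ BN η M0 (bl l) * uu η M0 (bl l) * (8 * BN η M0 (bl l)) := by
      apply mul_le_mul_of_nonneg_left _ h4.le
      linarith
    have h6 := small hη hη1 (bl l : ℕ)
    calc c l ≤ 2 ^ BN η M0 (bl l) * uu η M0 (bl l) := mul_le_mul_of_nonneg_right h1 hu0.le
      _ ≤ bb (bl l) / 8 := by linarith
  let rho : Fin B → ℝ := fun l => gam / c l
  have hrhopos : ∀ l, 0 < rho l := fun l => div_pos hg (hcpos l)
  have hcr : ∀ l, c l * rho l = gam := by
    intro l
    have := (hcpos l).ne'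
    show c l * (gam / c l) = gam
    field_simp
  let f : Fin B → ℝ → ℝ := fun l => hs (c l)
  have hDD : ∀ l l', bl l = bl l' → DD (f l) (f l') = if l = l' then rho l else 0 := by
    intro l l' hll
    have key : ∀ l l' : Fin B, bl l = bl l' → idx l < idx l' → DD (f l) (f l') = 0 := by
      intro l l' h0 h
      apply DD_hs_ne (hcpos l)
      show 2 ^ (idx l + 1) * uu η M0 (bl l) ≤ 2 ^ (idx l' + 1) * uu η M0 (bl l') / 2
      rw [← h0]
      have hu0 := uu_pos hη M0 (bl l)
      have h1 : (2 : ℝ) ^ (idx l + 1) ≤ 2 ^ idx l' := pow_le_pow_right₀ (by norm_num) h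
      have h2 : (2 : ℝ) ^ (idx l' + 1) = 2 ^ idx l' * 2 := pow_succ _ _
      rw [h2]
      nlinarith
    split_ifs with h
    · subst h
      exact DD_hs_self (hcpos l)
    · rcases lt_or_gt_of_ne (fun h' => h (hinj l l' hll h')) with h1 | h1
      · exact key _ _ hll h1
      · rw [DD_comm]; exact key _ _ hll.symm h1
  -- sums over a block of indices
  have hbl : ∀ (s : Fin J) (k : Fin (BN η M0 s)), bl (e ⟨s, k⟩) = s := fun s k => by
    show (e.symm (e ⟨s, k⟩)).1 = s
    rw [Equiv.symm_apply_apply]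
  have hidx' : ∀ (s : Fin J) (k : Fin (BN η M0 s)), idx (e ⟨s, k⟩) = k := fun s k => by
    show ((e.symm (e ⟨s, k⟩)).2 : ℕ) = k
    rw [Equiv.symm_apply_apply]
  have hfib : ∀ (F : Fin B → ℝ) (t : Fin J), ∑ l, (if bl l = t then F l else 0) =
      ∑ k : Fin (BN η M0 t), F (e ⟨t, k⟩) := by
    intro F t
    rw [← Equiv.sum_comp e, Fintype.sum_sigma]
    rw [Finset.sum_eq_single t]
    · exact Finset.sum_congr rfl fun k _ => by rw [if_pos (hbl t k)]
    · intro s _ hs
      exact Finset.sum_eq_zero fun k _ => by rw [if_neg]; rw [hbl]; exact hs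
    · intro h; exact absurd (Finset.mem_univ _) h
  let sv : Fin J → ℝ := fun t => ∑ l, if bl l = t then rho l else 0
  have hBb : ∀ t, ((univ : Finset (Fin B)).filter (fun l => bl l = t)).card = BN η M0 t := by
    intro t
    have h1 := hfib (fun _ => 1) t
    rw [← Finset.sum_filter, Finset.sum_const, Finset.sum_const, Finset.card_univ, Fintype.card_fin,
      nsmul_eq_mul, nsmul_eq_mul, mul_one, mul_one] at h1
    exact_mod_cast h1
  have hcv : ∀ (t : Fin J) (k : Fin (BN η M0 t)), c (e ⟨t, k⟩) = 2 ^ ((k : ℕ) + 1) * uu η M0 t := by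
    intro t k
    show 2 ^ (idx (e ⟨t, k⟩) + 1) * uu η M0 (bl (e ⟨t, k⟩)) = _
    rw [hidx', hbl]
  have hsvge : ∀ t : Fin J, gam / (2 * uu η M0 t) ≤ sv t := by
    intro t
    show _ ≤ ∑ l, if bl l = t then rho l else 0
    rw [hfib]
    have h1 := Finset.single_le_sum (f := fun k : Fin (BN η M0 t) => rho (e ⟨t, k⟩))
      (fun k _ => (hrhopos _).le) (Finset.mem_univ ⟨0, BN_pos η M0 t⟩)
    refine le_trans (le_of_eq ?_) h1
    show gam / (2 * uu η M0 t) = gam / c (e ⟨t, ⟨0, _⟩⟩)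
    rw [hcv]
    norm_num
  have hsvpos : ∀ t, 0 < sv t := fun t => by
    have hu0 := uu_pos hη M0 t
    exact lt_of_lt_of_le (by positivity) (hsvge t)
  have hsvle : ∀ t : Fin J, sv t ≤ gam / uu η M0 t := by
    intro t
    show (∑ l, if bl l = t then rho l else 0) ≤ _
    rw [hfib]
    have hu0 := uu_pos hη M0 t
    have h1 : ∑ k : Fin (BN η M0 t), rho (e ⟨t, k⟩) =
        (gam / uu η M0 t) * ∑ k : Fin (BN η M0 t), bb k := by
      rw [Finset.mul_sum]
      refine Finset.sum_congr rfl fun k _ => ?_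
      show gam / c (e ⟨t, k⟩) = _
      rw [hcv]
      unfold bb
      rw [one_div, inv_pow]
      field_simp
    rw [h1]
    calc (gam / uu η M0 t) * ∑ k : Fin (BN η M0 t), bb k ≤ (gam / uu η M0 t) * 1 := by
          apply mul_le_mul_of_nonneg_left (bb_sum _) (by positivity)
      _ = gam / uu η M0 t := mul_one _
  -- blocks of coordinates
  have hex : ∀ i : Fin (K0 + 1), ∃ s : Fin J, off η M0 s ≤ i ∧ (i : ℕ) < off η M0 ((s : ℕ) + 1) := by
    intro i
    obtain ⟨s, h1, h2, h3⟩ := exists_blk η M0 J i (by rw [hJ]; exact i.2)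
    exact ⟨⟨s, h1⟩, h2, h3⟩
  choose blk hblk1 hblk2 using hex
  have hblk : ∀ (i : Fin (K0 + 1)) (s : ℕ) (h : s < J), off η M0 s ≤ i → (i : ℕ) < off η M0 (s + 1) →
      blk i = ⟨s, h⟩ := by
    intro i s h h1 h2
    apply Fin.ext
    show (blk i : ℕ) = s
    by_contra hne
    rcases lt_or_gt_of_ne hne with h3 | h3
    · have := (off_mono η M0).monotone (Nat.succ_le_of_lt h3)
      have h4 := hblk2 i
      simp only [Nat.succ_eq_add_one] at this
      omega
    · have := (off_mono η M0).monotone (Nat.succ_le_of_lt h3)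
      have h4 := hblk1 i
      simp only [Nat.succ_eq_add_one] at this
      omega
  have hKb : ∀ t, ((univ : Finset (Fin (K0 + 1))).filter (fun j => blk j = t)).card ≤
      KN η M0 t := by
    intro t
    have h1 : ((univ : Finset (Fin (K0 + 1))).filter (fun j => blk j = t)).card ≤
        (Ico (off η M0 t) (off η M0 ((t : ℕ) + 1))).card := by
      apply Finset.card_le_card_of_injOn (fun j : Fin (K0 + 1) => (j : ℕ))
      · intro j hj
        have h2 : blk j = t := (Finset.mem_filter.1 hj).2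
        rw [Finset.coe_Ico, Set.mem_Ico, ← h2]
        exact ⟨hblk1 j, hblk2 j⟩
      · intro j _ k _ h
        exact Fin.ext h
    rw [Nat.card_Ico, off_succ] at h1
    omega
  have hbig : ∀ t : Fin J, (KN η M0 t : ℝ) * (BN η M0 t * gam) ≤ (η * bb t) * (bb t / 2) * sv t := by
    intro t
    have hu0 := uu_pos hη M0 t
    have hb := bb_pos t
    have h1 : (η * bb t) * (bb t / 2) * (gam / (2 * uu η M0 t)) ≤ (η * bb t) * (bb t / 2) * sv t :=
      mul_le_mul_of_nonneg_left (hsvge t) (by positivity)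
    have h2 : (η * bb t) * (bb t / 2) * (gam / (2 * uu η M0 t)) = (KN η M0 t : ℝ) * (BN η M0 t * gam) := by
      have h3 : η * bb t * bb t = uu η M0 t * (4 * BN η M0 t * KN η M0 t) := (uu_mul M0 t).symm
      calc (η * bb t) * (bb t / 2) * (gam / (2 * uu η M0 t)) =
            (η * bb t * bb t) * (gam / (4 * uu η M0 t)) := by field_simp; ring
        _ = (KN η M0 t : ℝ) * (BN η M0 t * gam) := by
            rw [h3]; field_simp
    linarith
  set A : Finset (Fin (K0 + 1) → Fin B) := univ.filter (fun a => (∀ j, bl (a j) = blk j) ∧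
      ∀ t, ∑ j ∈ univ.filter (fun j => blk j = t), c (a j) ≤ bb t) with hA
  obtain ⟨hII, hIIle, hJJ, hJJ2⟩ := core blk bl f c rho (fun t => KN η M0 t) (fun t => BN η M0 t) sv
    (fun t => bb t) (fun t => η * bb t) gam (fun l => hs_at_zero _) hDD hrhopos hcpos hcr
    (fun _ => rfl) hsvpos hg.le hBb hKb (fun t => bb_pos t)
    (fun l => by have := hcle l; have := bb_pos (bl l); linarith) hbig A hA
  have het : ∑ t : Fin J, η * bb t ≤ η := by
    rw [← Finset.mul_sum]
    calc η * ∑ t : Fin J, bb t ≤ η * 1 := mul_le_mul_of_nonneg_left (bb_sum J) hη.le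
      _ = η := mul_one _
  refine ⟨B, f, c, A, ∏ j, sv (blk j), fun s => if h : s < J then
    (KN η M0 s : ℝ) * (BN η M0 s : ℝ) ^ 2 / sv ⟨s, h⟩ else 0,
    fun l => hs_smooth _, fun l => hs_compact (hcpos l), ?_, ?_, ?_, ?_, ?_, hIIle, ?_⟩
  · intro l x hx
    apply hs_zero (hcpos l)
    exact hx.le.trans (le_abs_self x)
  · intro l
    exact ⟨(hcpos l).le, by have := hcle l; have := bb_le (bl l); linarith⟩
  · intro a ha
    have h1 := (Finset.mem_filter.1 ha).2.2
    rw [← Finset.sum_fiberwise univ blk (fun j => c (a j))]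
    exact (Finset.sum_le_sum fun t _ => h1 t).trans (bb_sum J)
  · intro l x
    exact hs_abs_le _ _
  · rw [hII]
    apply Finset.sum_pos (fun a _ => Finset.prod_pos fun j _ => hrhopos _)
    refine ⟨fun j => e ⟨blk j, ⟨0, BN_pos η M0 _⟩⟩, ?_⟩
    rw [hA, Finset.mem_filter]
    refine ⟨Finset.mem_univ _, fun j => hbl _ _, fun t => ?_⟩
    have h1 : ∀ j ∈ univ.filter (fun j => blk j = t),
        c (e ⟨blk j, ⟨0, BN_pos η M0 _⟩⟩) = 2 * uu η M0 t := by
      intro j hj
      rw [hcv, (Finset.mem_filter.1 hj).2]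
      norm_num
    rw [Finset.sum_congr rfl h1, Finset.sum_const, nsmul_eq_mul]
    have h2 : (((univ.filter (fun j => blk j = t)).card : ℕ) : ℝ) ≤ KN η M0 t := by
      exact_mod_cast hKb t
    have hu0 := uu_pos hη M0 t
    have hu1 := uu_mul (η := η) M0 t
    have hb := bb_pos t
    have hb2 := bb_le t
    have hB1 : (1 : ℝ) ≤ BN η M0 t := by exact_mod_cast BN_pos η M0 t
    have hK1 : (1 : ℝ) ≤ KN η M0 t := by exact_mod_cast KN_pos η M0 t
    have h3 : (((univ.filter (fun j => blk j = t)).card : ℕ) : ℝ) * (2 * uu η M0 t) ≤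
        KN η M0 t * (2 * uu η M0 t) := mul_le_mul_of_nonneg_right h2 (by positivity)
    have h4 : KN η M0 t * (2 * uu η M0 t) ≤ uu η M0 t * (4 * BN η M0 t * KN η M0 t) := by
      have : 0 < KN η M0 t * uu η M0 t := by positivity
      nlinarith
    have h6 := small hη hη1 (t : ℕ)
    linarith
  · intro s hs
    have hdiff : ((off η M0 (s + 1) : ℕ) : ℝ) - (off η M0 s : ℕ) = KN η M0 s := by
      rw [off_succ]; push_cast; ring
    simp only [dif_pos hs]
    have hu0 := uu_pos hη M0 s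
    have hb := bb_pos s
    have hsp := hsvpos ⟨s, hs⟩
    refine ⟨?_, fun i hi1 hi2 => ?_⟩
    · rw [le_div_iff₀ hsp]
      rcases le_total M0 0 with hM | hM
      · have h1 : M0 * sv ⟨s, hs⟩ ≤ 0 := mul_nonpos_of_nonpos_of_nonneg hM hsp.le
        have h2 : 0 ≤ (KN η M0 s : ℝ) * (BN η M0 s : ℝ) ^ 2 := by positivity
        linarith
      · have hηρ : 0 < η * bb s * bb s := by positivity
        have hBM : 4 * gam * M0 / (η * bb s * bb s) ≤ BN η M0 s :=
          (Nat.le_ceil _).trans (by exact_mod_cast le_max_right _ _)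
        have h1 : 4 * gam * M0 ≤ BN η M0 s * (η * bb s * bb s) := by
          rwa [div_le_iff₀ hηρ] at hBM
        have hle : sv ⟨s, hs⟩ ≤ gam / uu η M0 s := hsvle ⟨s, hs⟩
        calc M0 * sv ⟨s, hs⟩ ≤ M0 * (gam / uu η M0 s) := mul_le_mul_of_nonneg_left hle hM
          _ = (4 * gam * M0) * (BN η M0 s * KN η M0 s) / (η * bb s * bb s) := by
              unfold uu
              have h2 : (0 : ℝ) < BN η M0 s := by exact_mod_cast BN_pos η M0 s
              have h3 : (0 : ℝ) < KN η M0 s := by exact_mod_cast KN_pos η M0 s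
              field_simp
          _ ≤ (BN η M0 s * (η * bb s * bb s)) * (BN η M0 s * KN η M0 s) / (η * bb s * bb s) := by
              apply div_le_div_of_nonneg_right _ hηρ.le
              exact mul_le_mul_of_nonneg_right h1 (by positivity)
          _ = (KN η M0 s : ℝ) * (BN η M0 s : ℝ) ^ 2 := by field_simp
    · have hbi := hblk i s hs hi1 hi2
      rw [hdiff, Fin.prod_univ_succAbove _ i, hbi]
      set P : ℝ := ∏ j : Fin K0, sv (blk (i.succAbove j)) with hP
      have hP0 : 0 < P := Finset.prod_pos fun j _ => hsvpos _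
      have h1 := hJJ i
      rw [hbi] at h1
      refine ⟨?_, fun j0 hj1 hj2 => ?_⟩
      · have h2 : (1 - η) * ((BN η M0 s : ℝ) ^ 2 * P) ≤ JJ f A i := by
          have h3 : 0 ≤ (BN η M0 s : ℝ) ^ 2 * P := by positivity
          refine le_trans ?_ h1
          show _ ≤ (1 - ∑ t : Fin J, η * bb t) * (BN η M0 s : ℝ) ^ 2 * P
          rw [mul_assoc]
          exact mul_le_mul_of_nonneg_right (by linarith) h3
        calc (1 - η) * ((KN η M0 s : ℝ) * (BN η M0 s : ℝ) ^ 2 / sv ⟨s, hs⟩) * (sv ⟨s, hs⟩ * P) =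
              (KN η M0 s : ℝ) * ((1 - η) * ((BN η M0 s : ℝ) ^ 2 * P)) := by
                field_simp
          _ ≤ (KN η M0 s : ℝ) * JJ f A i := mul_le_mul_of_nonneg_left h2 (by positivity)
      · have hbj := hblk _ s hs hj1 hj2
        have h2 := hJJ2 i j0
        rw [hbi, hbj] at h2
        have h3 : JJ2 f A i j0 ≤ (BN η M0 s : ℝ) ^ 2 * (BN η M0 s : ℝ) ^ 2 * P / sv ⟨s, hs⟩ := by
          rw [le_div_iff₀ hsp]
          exact h2
        calc (KN η M0 s : ℝ) ^ 2 * JJ2 f A i j0 ≤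
              (KN η M0 s : ℝ) ^ 2 * ((BN η M0 s : ℝ) ^ 2 * (BN η M0 s : ℝ) ^ 2 * P / sv ⟨s, hs⟩) :=
                mul_le_mul_of_nonneg_left h3 (by positivity)
          _ = _ := by field_simp

end Pool.Agent.Y108.NP
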