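import Pool.Agent.H362R2.QT.Stubs

/-!
# Block families of test functions: the combinatorial part
-/

set_option autoImplicit false

open Finset Filter Topology
open scoped ContDiff

namespace Pool.Agent.Y108.NP

open Pool.Agent.H378R2 Pool.Agent.H387R2 Pool.Agent.H387R2.MB Pool.Agent.H362R2.QT

/-- Markov's inequality in every block and the union bound -/
theorem comb {n J B : ℕ} (blk : Fin n → Fin J) (w : Fin J → Fin B → ℝ) (hw : ∀ t l, 0 ≤ w t l)
    (c : Fin B → ℝ) (hc : ∀ l, 0 ≤ c l) (r et sv : Fin J → ℝ) (hr : ∀ t, 0 < r t)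
    (hsv : ∀ t, sv t = ∑ l, w t l) (hsv0 : ∀ t, 0 < sv t)
    (hbig : ∀ t, (((univ : Finset (Fin n)).filter (fun j => blk j = t)).card : ℝ) *
      (∑ l, c l * w t l) ≤ et t * r t * sv t) :
    (1 - ∑ t, et t) * ∏ j, sv (blk j) ≤
      ∑ a ∈ (univ : Finset (Fin n → Fin B)).filter
        (fun a => ∀ t, ∑ j ∈ univ.filter (fun j => blk j = t), c (a j) ≤ r t),
      ∏ j, w (blk j) (a j) := by
  classical
  set W : (Fin n → Fin B) → ℝ := fun a => ∏ j, w (blk j) (a j) with hW
  set T : ℝ := ∏ j, sv (blk j) with hT
  have hWnn : ∀ a, 0 ≤ W a := fun a => Finset.prod_nonneg fun j _ => hw _ _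
  have hTpos : 0 < T := Finset.prod_pos fun j _ => hsv0 _
  have htot : ∑ a, W a = T := by
    rw [hT, hW]
    rw [sum_prod_fun (fun j l => w (blk j) l)]
    exact Finset.prod_congr rfl fun j _ => (hsv _).symm
  -- one coordinate
  have hone : ∀ j : Fin n, (∑ a, c (a j) * W a) * sv (blk j) = (∑ l, c l * w (blk j) l) * T := by
    intro j
    have h1 : ∀ a : Fin n → Fin B, c (a j) * W a =
        ∏ k, (fun (k : Fin n) (l : Fin B) => if k = j then c l * w (blk k) l else w (blk k) l) k (a k) := by
      intro a
      simp only [hW]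
      rw [← Finset.mul_prod_erase univ _ (Finset.mem_univ j), ← mul_assoc,
        ← Finset.mul_prod_erase univ (fun k => (fun (k : Fin n) (l : Fin B) =>
          if k = j then c l * w (blk k) l else w (blk k) l) k (a k)) (Finset.mem_univ j)]
      simp only [if_true]
      congr 1
      refine Finset.prod_congr rfl fun k hk => ?_
      rw [if_neg (Finset.ne_of_mem_erase hk)]
    rw [Finset.sum_congr rfl (fun a _ => h1 a),
      sum_prod_fun (fun (k : Fin n) (l : Fin B) => if k = j then c l * w (blk k) l else w (blk k) l),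
      ← Finset.mul_prod_erase univ _ (Finset.mem_univ j), hT,
      ← Finset.mul_prod_erase univ (fun j => sv (blk j)) (Finset.mem_univ j)]
    simp only [if_true]
    have h2 : ∏ k ∈ univ.erase j, (∑ l : Fin B, if k = j then c l * w (blk k) l else w (blk k) l) =
        ∏ k ∈ univ.erase j, sv (blk k) := by
      refine Finset.prod_congr rfl fun k hk => ?_
      simp only [if_neg (Finset.ne_of_mem_erase hk)]
      exact (hsv _).symm
    rw [h2]
    ring
  set bad : Fin J → Finset (Fin n → Fin B) := fun t => univ.filter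
    (fun a => ¬ ∑ j ∈ univ.filter (fun j => blk j = t), c (a j) ≤ r t) with hbaddef
  have hbad : ∀ t, ∑ a ∈ bad t, W a ≤ et t * T := by
    intro t
    have h1 : (∑ a ∈ bad t, W a) * r t ≤
        ∑ a, (∑ j ∈ univ.filter (fun j => blk j = t), c (a j)) * W a := by
      rw [Finset.sum_mul]
      calc _ ≤ ∑ a ∈ bad t, (∑ j ∈ univ.filter (fun j => blk j = t), c (a j)) * W a := by
              refine Finset.sum_le_sum fun a ha => ?_
              rw [hbaddef, Finset.mem_filter, not_le] at ha
              nlinarith [ha.2, hWnn a]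
        _ ≤ _ := by
              apply Finset.sum_le_sum_of_subset_of_nonneg (Finset.filter_subset _ _)
              intro a _ _
              exact mul_nonneg (Finset.sum_nonneg fun j _ => hc _) (hWnn a)
    have h2 : (∑ a, (∑ j ∈ univ.filter (fun j => blk j = t), c (a j)) * W a) * sv t =
        (((univ : Finset (Fin n)).filter (fun j => blk j = t)).card : ℝ) *
          (∑ l, c l * w t l) * T := by
      have h3 : (∑ a, (∑ j ∈ univ.filter (fun j => blk j = t), c (a j)) * W a) * sv t =
          ∑ j ∈ univ.filter (fun j => blk j = t), (∑ a, c (a j) * W a) * sv t := by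
        rw [← Finset.sum_mul, Finset.sum_comm]
        congr 1
        refine Finset.sum_congr rfl fun a _ => ?_
        rw [Finset.sum_mul]
      rw [h3, Finset.sum_congr rfl (g := fun _ => (∑ l, c l * w t l) * T)]
      · rw [Finset.sum_const, nsmul_eq_mul, mul_assoc]
      · intro j hj
        have h4 : blk j = t := (Finset.mem_filter.1 hj).2
        have h5 := hone j
        rw [h4] at h5
        exact h5
    have h3 : (∑ a ∈ bad t, W a) * (r t * sv t) ≤ (et t * T) * (r t * sv t) := by
      calc (∑ a ∈ bad t, W a) * (r t * sv t) = ((∑ a ∈ bad t, W a) * r t) * sv t := by ring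
        _ ≤ (∑ a, (∑ j ∈ univ.filter (fun j => blk j = t), c (a j)) * W a) * sv t :=
            mul_le_mul_of_nonneg_right h1 (hsv0 t).le
        _ = (((univ : Finset (Fin n)).filter (fun j => blk j = t)).card : ℝ) *
          (∑ l, c l * w t l) * T := h2
        _ ≤ (et t * r t * sv t) * T := mul_le_mul_of_nonneg_right (hbig t) hTpos.le
        _ = _ := by ring
    exact le_of_mul_le_mul_right h3 (mul_pos (hr t) (hsv0 t))
  have hsplit := Finset.sum_filter_add_sum_filter_not (univ : Finset (Fin n → Fin B))
    (fun a => ∀ t, ∑ j ∈ univ.filter (fun j => blk j = t), c (a j) ≤ r t) W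
  rw [htot] at hsplit
  have hun : ∑ a ∈ (univ : Finset (Fin n → Fin B)).filter
      (fun a => ¬ ∀ t, ∑ j ∈ univ.filter (fun j => blk j = t), c (a j) ≤ r t), W a ≤
      ∑ t, ∑ a ∈ bad t, W a := by
    have h1 : ∑ t, ∑ a ∈ bad t, W a = ∑ a, ∑ t, (if a ∈ bad t then W a else 0) := by
      rw [Finset.sum_comm]
      refine Finset.sum_congr rfl fun t _ => ?_
      rw [← Finset.sum_filter]
      congr 1
      ext a
      simp
    have hnn : ∀ a, 0 ≤ ∑ t, (if a ∈ bad t then W a else 0) := fun a =>
      Finset.sum_nonneg fun t _ => by split_ifs <;> [exact hWnn a; exact le_rfl]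
    rw [h1]
    refine le_trans ?_ (Finset.sum_le_sum_of_subset_of_nonneg
      (Finset.filter_subset (fun a : Fin n → Fin B =>
        ¬ ∀ t, ∑ j ∈ univ.filter (fun j => blk j = t), c (a j) ≤ r t) univ)
      fun a _ _ => hnn a)
    refine Finset.sum_le_sum fun a ha => ?_
    obtain ⟨t, ht⟩ := not_forall.1 (Finset.mem_filter.1 ha).2
    have h2 : a ∈ bad t := Finset.mem_filter.2 ⟨Finset.mem_univ _, ht⟩
    have h3 := Finset.single_le_sum (f := fun t => if a ∈ bad t then W a else 0)
      (fun t _ => by split_ifs <;> [exact hWnn a; exact le_rfl]) (Finset.mem_univ t)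
    simpa only [if_pos h2] using h3
  have h6 : ∑ t, ∑ a ∈ bad t, W a ≤ (∑ t, et t) * T := by
    rw [Finset.sum_mul]
    exact Finset.sum_le_sum fun t _ => hbad t
  linarith

end Pool.Agent.Y108.NP
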