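import Pool.Agent.Y108.NP.Comb

/-!
# Block families of test functions: the three functionals
-/

set_option autoImplicit false

open Finset Filter Topology
open scoped ContDiff

namespace Pool.Agent.Y108.NP

open Pool.Agent.H378R2 Pool.Agent.H387R2 Pool.Agent.H387R2.MB Pool.Agent.H362R2.QT

theorem core {J K0 B : ℕ} (blk : Fin (K0 + 1) → Fin J) (bl : Fin B → Fin J)
    (f : Fin B → ℝ → ℝ) (c rho : Fin B → ℝ) (Kb Bb : Fin J → ℕ) (sv bud et : Fin J → ℝ) (g : ℝ)
    (hf0 : ∀ l, f l 0 = 1)
    (hDD : ∀ l l', bl l = bl l' → DD (f l) (f l') = if l = l' then rho l else 0)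
    (hrho : ∀ l, 0 < rho l) (hc : ∀ l, 0 < c l) (hcr : ∀ l, c l * rho l = g)
    (hsv : ∀ t, sv t = ∑ l, if bl l = t then rho l else 0) (hsv0 : ∀ t, 0 < sv t)
    (hg : 0 ≤ g)
    (hBb : ∀ t, ((univ : Finset (Fin B)).filter (fun l => bl l = t)).card = Bb t)
    (hKb : ∀ t, ((univ : Finset (Fin (K0 + 1))).filter (fun j => blk j = t)).card ≤ Kb t)
    (hbud : ∀ t, 0 < bud t) (hcl : ∀ l, c l ≤ bud (bl l) / 2)
    (hbig : ∀ t, (Kb t : ℝ) * (Bb t * g) ≤ et t * (bud t / 2) * sv t)
    (A : Finset (Fin (K0 + 1) → Fin B))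
    (hA : A = univ.filter (fun a => (∀ j, bl (a j) = blk j) ∧
      ∀ t, ∑ j ∈ univ.filter (fun j => blk j = t), c (a j) ≤ bud t)) :
    II f A = ∑ a ∈ A, ∏ j, rho (a j) ∧ II f A ≤ ∏ j, sv (blk j) ∧
    (∀ i, (1 - ∑ t, et t) * (Bb (blk i) : ℝ) ^ 2 * ∏ j : Fin K0, sv (blk (i.succAbove j)) ≤
      JJ f A i) ∧
    (∀ i (j0 : Fin K0), JJ2 f A i j0 * sv (blk (i.succAbove j0)) ≤
      (Bb (blk i) : ℝ) ^ 2 * (Bb (blk (i.succAbove j0)) : ℝ) ^ 2 *
        ∏ j : Fin K0, sv (blk (i.succAbove j))) := by
  classical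
  set w : Fin J → Fin B → ℝ := fun t l => if bl l = t then rho l else 0 with hwdef
  have hw : ∀ t l, 0 ≤ w t l := fun t l => by
    simp only [hwdef]; split_ifs <;> [exact (hrho l).le; exact le_rfl]
  have hprodDD : ∀ {n : ℕ} (a b : Fin n → Fin B), (∀ j, bl (a j) = bl (b j)) →
      ∏ j, DD (f (a j)) (f (b j)) = if a = b then ∏ j, rho (a j) else 0 := by
    intro n a b hab
    split_ifs with h
    · subst h
      refine Finset.prod_congr rfl fun j _ => ?_
      rw [hDD _ _ rfl, if_pos rfl]
    · obtain ⟨j, hj⟩ := Function.ne_iff.1 h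
      apply Finset.prod_eq_zero (Finset.mem_univ j)
      rw [hDD _ _ (hab j), if_neg hj]
  have hDDnn : ∀ l l', bl l = bl l' → 0 ≤ DD (f l) (f l') := by
    intro l l' h
    rw [hDD _ _ h]
    split_ifs
    · exact (hrho _).le
    · exact le_rfl
  have hprodnn : ∀ {n : ℕ} (a : Fin n → Fin B), 0 ≤ ∏ j, rho (a j) := fun a =>
    Finset.prod_nonneg fun j _ => (hrho _).le
  have hAbl : ∀ a ∈ A, ∀ j, bl (a j) = blk j := fun a ha => by
    rw [hA, Finset.mem_filter] at ha
    exact ha.2.1
  have hwr : ∀ a : Fin (K0 + 1) → Fin B, (∀ j, bl (a j) = blk j) →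
      ∏ j, w (blk j) (a j) = ∏ j, rho (a j) := fun a ha =>
    Finset.prod_congr rfl fun j _ => by simp only [hwdef]; rw [if_pos (ha j)]
  have hII : II f A = ∑ a ∈ A, ∏ j, rho (a j) := by
    unfold II
    refine Finset.sum_congr rfl fun a ha => ?_
    rw [Finset.sum_congr rfl (fun b hb => hprodDD a b fun j => by rw [hAbl a ha, hAbl b hb])]
    rw [Finset.sum_ite_eq A a, if_pos ha]
  have hIIle : II f A ≤ ∏ j, sv (blk j) := by
    rw [hII]
    calc ∑ a ∈ A, ∏ j, rho (a j) = ∑ a ∈ A, ∏ j, w (blk j) (a j) :=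
          Finset.sum_congr rfl fun a ha => (hwr a (hAbl a ha)).symm
      _ ≤ ∑ a : Fin (K0 + 1) → Fin B, ∏ j, w (blk j) (a j) :=
          Finset.sum_le_sum_of_subset_of_nonneg (Finset.subset_univ _)
            fun a _ _ => Finset.prod_nonneg fun j _ => hw _ _
      _ = ∏ j, sv (blk j) := by
          rw [sum_prod_fun (fun j l => w (blk j) l)]
          exact Finset.prod_congr rfl fun j _ => (hsv _).symm
  refine ⟨hII, hIIle, ?_, ?_⟩
  · intro i
    have hcl' : ∀ t, (∑ l, c l * w t l) = (Bb t : ℝ) * g := by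
      intro t
      simp only [hwdef, mul_ite, mul_zero, hcr]
      rw [← Finset.sum_filter, Finset.sum_const, nsmul_eq_mul, hBb]
    have hcard : ∀ t, ((univ : Finset (Fin K0)).filter (fun j => blk (i.succAbove j) = t)).card ≤
        Kb t := by
      intro t
      refine le_trans ?_ (hKb t)
      rw [← Finset.card_image_of_injective _ (Fin.succAbove_right_injective (p := i))]
      apply Finset.card_le_card
      intro j hj
      obtain ⟨k, hk, rfl⟩ := Finset.mem_image.1 hj
      exact Finset.mem_filter.2 ⟨Finset.mem_univ _, (Finset.mem_filter.1 hk).2⟩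
    have hcomb := comb (fun j : Fin K0 => blk (i.succAbove j)) w hw c (fun l => (hc l).le)
      (fun t => bud t / 2) et sv (fun t => half_pos (hbud t)) hsv hsv0 (by
        intro t
        rw [hcl']
        refine le_trans (mul_le_mul_of_nonneg_right ?_ (by positivity)) (hbig t)
        exact_mod_cast hcard t)
    set good := (univ : Finset (Fin K0 → Fin B)).filter (fun a =>
      (∀ j, bl (a j) = blk (i.succAbove j)) ∧
      ∀ t, ∑ j ∈ univ.filter (fun j => blk (i.succAbove j) = t), c (a j) ≤ bud t / 2) with hgood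
    have hgsum : ∑ a ∈ (univ : Finset (Fin K0 → Fin B)).filter
        (fun a => ∀ t, ∑ j ∈ univ.filter (fun j => blk (i.succAbove j) = t), c (a j) ≤ bud t / 2),
        ∏ j, w (blk (i.succAbove j)) (a j) = ∑ a ∈ good, ∏ j, rho (a j) := by
      rw [hgood, ← Finset.filter_filter, ]
      rw [Finset.filter_comm]
      symm
      rw [Finset.sum_filter]
      refine Finset.sum_congr rfl fun a _ => ?_
      by_cases h : ∀ j, bl (a j) = blk (i.succAbove j)
      · rw [if_pos h]
        exact Finset.prod_congr rfl fun j _ => by simp only [hwdef]; rw [if_pos (h j)]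
      · rw [if_neg h]
        obtain ⟨j, hj⟩ := not_forall.1 h
        symm
        apply Finset.prod_eq_zero (Finset.mem_univ j)
        simp only [hwdef]
        rw [if_neg hj]
    rw [hgsum] at hcomb
    set Lam := (univ : Finset (Fin B)).filter (fun l => bl l = blk i) with hLam
    unfold JJ
    simp_rw [hf0, one_mul]
    rw [← Finset.sum_product']
    set φ : (Fin B × Fin B) × (Fin K0 → Fin B) → (Fin (K0 + 1) → Fin B) × (Fin (K0 + 1) → Fin B) :=
      fun x => (i.insertNth (α := fun _ => Fin B) x.1.1 x.2, i.insertNth (α := fun _ => Fin B) x.1.2 x.2) with hφ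
    have hmem : ∀ a' ∈ good, ∀ l ∈ Lam, (i.insertNth (α := fun _ => Fin B) l a') ∈ A := by
      intro a' ha' l hl
      have h1 := (Finset.mem_filter.1 ha').2
      have h2 : bl l = blk i := (Finset.mem_filter.1 hl).2
      rw [hA, Finset.mem_filter]
      refine ⟨Finset.mem_univ _, ?_, ?_⟩
      · rw [Fin.forall_iff_succAbove i]
        simp only [Fin.insertNth_apply_same, Fin.insertNth_apply_succAbove]
        exact ⟨h2, h1.1⟩
      · intro t
        rw [Finset.sum_filter, Fin.sum_univ_succAbove _ i]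
        simp only [Fin.insertNth_apply_same, Fin.insertNth_apply_succAbove]
        rw [← Finset.sum_filter]
        have h3 := h1.2 t
        have h4 := hcl l
        have h5 : (if blk i = t then c l else 0) ≤ bud t / 2 := by
          split_ifs with h
          · rw [← h, ← h2]; exact h4
          · exact (half_pos (hbud t)).le
        linarith
    have himg : ((Lam ×ˢ Lam) ×ˢ good).image φ ⊆ A ×ˢ A := by
      intro x hx
      rw [Finset.mem_image] at hx
      obtain ⟨y, hy, rfl⟩ := hx
      rw [Finset.mem_product, Finset.mem_product] at hy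
      rw [Finset.mem_product]
      exact ⟨hmem _ hy.2 _ hy.1.1, hmem _ hy.2 _ hy.1.2⟩
    have hnn : ∀ x ∈ A ×ˢ A, x ∉ ((Lam ×ˢ Lam) ×ˢ good).image φ →
        0 ≤ ∏ j : Fin K0, DD (f (x.1 (i.succAbove j))) (f (x.2 (i.succAbove j))) := by
      intro x hx _
      rw [Finset.mem_product] at hx
      exact Finset.prod_nonneg fun j _ => hDDnn _ _ (by rw [hAbl _ hx.1, hAbl _ hx.2])
    refine le_trans ?_ (Finset.sum_le_sum_of_subset_of_nonneg himg hnn)
    rw [Finset.sum_image]
    · rw [Finset.sum_product]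
      have h1 : ∀ x : Fin B × Fin B, ∑ y ∈ good, ∏ j : Fin K0, DD (f ((φ (x, y)).1 (i.succAbove j)))
          (f ((φ (x, y)).2 (i.succAbove j))) = ∑ y ∈ good, ∏ j, rho (y j) := by
        intro x
        refine Finset.sum_congr rfl fun y _ => ?_
        simp only [hφ, Fin.insertNth_apply_succAbove]
        rw [hprodDD y y (fun _ => rfl), if_pos rfl]
      simp_rw [h1]
      rw [Finset.sum_const, Finset.card_product, hLam, hBb, nsmul_eq_mul]
      push_cast
      have hBB : (0 : ℝ) ≤ (Bb (blk i) : ℝ) * Bb (blk i) := by positivity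
      calc (1 - ∑ t, et t) * (Bb (blk i) : ℝ) ^ 2 * ∏ j : Fin K0, sv (blk (i.succAbove j)) =
            (Bb (blk i) : ℝ) * Bb (blk i) *
              ((1 - ∑ t, et t) * ∏ j : Fin K0, sv (blk (i.succAbove j))) := by ring
        _ ≤ _ := mul_le_mul_of_nonneg_left hcomb hBB
    · intro x _ y _ hxy
      simp only [hφ, Prod.mk.injEq] at hxy
      have h1 := congrFun hxy.1 i
      have h2 := congrFun hxy.2 i
      simp only [Fin.insertNth_apply_same] at h1 h2
      have h3 : x.2 = y.2 := by
        funext j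
        have := congrFun hxy.1 (i.succAbove j)
        simpa only [Fin.insertNth_apply_succAbove] using this
      exact Prod.ext (Prod.ext h1 h2) h3
  · intro i j0
    unfold JJ2
    simp_rw [hf0, one_mul]
    set BR : Finset (Fin (K0 + 1) → Fin B) := univ.filter (fun a => ∀ j, bl (a j) = blk j) with hBR
    have hABR : A ⊆ BR := fun a ha => Finset.mem_filter.2 ⟨Finset.mem_univ _, hAbl a ha⟩
    have hBRbl : ∀ a ∈ BR, ∀ j, bl (a j) = blk j := fun a ha => (Finset.mem_filter.1 ha).2
    have hnn : ∀ a ∈ BR, ∀ b ∈ BR, 0 ≤ ∏ j ∈ (univ : Finset (Fin K0)).erase j0,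
        DD (f (a (i.succAbove j))) (f (b (i.succAbove j))) := fun a ha b hb =>
      Finset.prod_nonneg fun j _ => hDDnn _ _ (by rw [hBRbl _ ha, hBRbl _ hb])
    have h1 : ∑ a ∈ A, ∑ b ∈ A, ∏ j ∈ (univ : Finset (Fin K0)).erase j0,
        DD (f (a (i.succAbove j))) (f (b (i.succAbove j))) ≤
        ∑ a ∈ BR, ∑ b ∈ BR,
          ∏ j ∈ (univ : Finset (Fin K0)).erase j0,
            DD (f (a (i.succAbove j))) (f (b (i.succAbove j))) := by
      calc _ ≤ ∑ a ∈ A, ∑ b ∈ BR, ∏ j ∈ (univ : Finset (Fin K0)).erase j0,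
            DD (f (a (i.succAbove j))) (f (b (i.succAbove j))) :=
            Finset.sum_le_sum fun a ha =>
              Finset.sum_le_sum_of_subset_of_nonneg hABR fun b hb _ => hnn a (hABR ha) b hb
        _ ≤ _ := Finset.sum_le_sum_of_subset_of_nonneg hABR
              fun a ha _ => Finset.sum_nonneg fun b hb => hnn a ha b hb
    -- the factors
    set Φ : Fin (K0 + 1) → Fin B → Fin B → ℝ := fun j l l' =>
      if bl l = blk j ∧ bl l' = blk j then
        (if j = i then 1 else if j = i.succAbove j0 then 1 else DD (f l) (f l')) else 0 with hΦ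
    have h2 : ∀ a b : Fin (K0 + 1) → Fin B, a ∈ BR → b ∈ BR →
        ∏ j ∈ (univ : Finset (Fin K0)).erase j0,
            DD (f (a (i.succAbove j))) (f (b (i.succAbove j))) =
        ∏ j : Fin (K0 + 1), Φ j (a j) (b j) := by
      intro a b ha hb
      have hΦ' : ∀ j, Φ j (a j) (b j) =
          if j = i then 1 else if j = i.succAbove j0 then 1 else DD (f (a j)) (f (b j)) := by
        intro j
        simp only [hΦ]
        rw [if_pos ⟨hBRbl a ha j, hBRbl b hb j⟩]
      rw [Finset.prod_congr rfl fun j _ => hΦ' j, Fin.prod_univ_succAbove _ i]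
      simp only [if_true, one_mul]
      rw [← Finset.mul_prod_erase univ _ (Finset.mem_univ j0)]
      simp only [if_true, Fin.succAbove_ne, if_false, one_mul]
      refine Finset.prod_congr rfl fun j hj => ?_
      rw [if_neg]
      intro h
      exact (Finset.ne_of_mem_erase hj) (Fin.succAbove_right_injective h)
    have h0 : ∀ a b : Fin (K0 + 1) → Fin B, ¬ (a ∈ BR ∧ b ∈ BR) →
        ∏ j : Fin (K0 + 1), Φ j (a j) (b j) = 0 := by
      intro a b hab
      have : ∃ j, ¬ (bl (a j) = blk j ∧ bl (b j) = blk j) := by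
        by_contra hcon
        push Not at hcon
        exact hab ⟨Finset.mem_filter.2 ⟨Finset.mem_univ _, fun j => (hcon j).1⟩,
          Finset.mem_filter.2 ⟨Finset.mem_univ _, fun j => (hcon j).2⟩⟩
      obtain ⟨j, hj⟩ := this
      apply Finset.prod_eq_zero (Finset.mem_univ j)
      simp only [hΦ]
      rw [if_neg hj]
    have h3 : ∑ a ∈ BR, ∑ b ∈ BR, ∏ j ∈ (univ : Finset (Fin K0)).erase j0,
            DD (f (a (i.succAbove j))) (f (b (i.succAbove j))) =
        ∏ j : Fin (K0 + 1), ∑ l : Fin B, ∑ l' : Fin B, Φ j l l' := by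
      rw [← sum_prod_fun (fun (j : Fin (K0 + 1)) (l : Fin B) => ∑ l' : Fin B, Φ j l l')]
      rw [← Finset.sum_subset (Finset.subset_univ BR)]
      · refine Finset.sum_congr rfl fun a ha => ?_
        rw [← sum_prod_fun (fun (j : Fin (K0 + 1)) (l' : Fin B) => Φ j (a j) l')]
        rw [← Finset.sum_subset (Finset.subset_univ BR)]
        · exact Finset.sum_congr rfl fun b hb => h2 a b ha hb
        · intro b _ hb
          exact h0 a b fun h => hb h.2
      · intro a _ ha
        rw [← sum_prod_fun (fun (j : Fin (K0 + 1)) (l' : Fin B) => Φ j (a j) l')]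
        exact Finset.sum_eq_zero fun b _ => h0 a b fun h => ha h.1
    have hΦ1 : ∀ j, (j = i ∨ j = i.succAbove j0) →
        ∑ l : Fin B, ∑ l' : Fin B, Φ j l l' = (Bb (blk j) : ℝ) ^ 2 := by
      intro j hj
      have h4 : ∀ l l', Φ j l l' = if bl l = blk j then (if bl l' = blk j then (1 : ℝ) else 0) else 0 := by
        intro l l'
        simp only [hΦ]
        have h5 : (if j = i then (1 : ℝ) else if j = i.succAbove j0 then 1 else DD (f l) (f l')) = 1 := by
          rcases hj with h | h
          · rw [if_pos h]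
          · rw [if_pos h, ite_self]
        rw [h5]
        by_cases h6 : bl l = blk j <;> by_cases h7 : bl l' = blk j <;> simp [h6, h7]
      have h5 : ∑ l' : Fin B, (if bl l' = blk j then (1 : ℝ) else 0) = Bb (blk j) := by
        rw [← Finset.sum_filter, Finset.sum_const, nsmul_eq_mul, mul_one, hBb]
      calc ∑ l : Fin B, ∑ l' : Fin B, Φ j l l' =
            ∑ l : Fin B, (if bl l = blk j then (Bb (blk j) : ℝ) else 0) := by
              refine Finset.sum_congr rfl fun l _ => ?_
              simp_rw [h4]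
              split_ifs
              · exact h5
              · simp
        _ = _ := by
              rw [← Finset.sum_filter, Finset.sum_const, nsmul_eq_mul, hBb, sq]
    have hΦ2 : ∀ j, j ≠ i → j ≠ i.succAbove j0 →
        ∑ l : Fin B, ∑ l' : Fin B, Φ j l l' = sv (blk j) := by
      intro j hj hj'
      rw [hsv]
      refine Finset.sum_congr rfl fun l _ => ?_
      simp only [hΦ, if_neg hj, if_neg hj']
      by_cases h6 : bl l = blk j
      · rw [if_pos h6]
        have h7 : ∀ l', (if bl l = blk j ∧ bl l' = blk j then DD (f l) (f l') else 0) =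
            if l = l' then rho l else 0 := by
          intro l'
          by_cases h8 : bl l' = blk j
          · rw [if_pos ⟨h6, h8⟩, hDD _ _ (by rw [h6, h8])]
          · rw [if_neg (fun h => h8 h.2), if_neg]
            intro h
            exact h8 (by rw [← h]; exact h6)
        simp_rw [h7]
        rw [Finset.sum_ite_eq, if_pos (Finset.mem_univ _)]
      · rw [if_neg h6]
        refine Finset.sum_eq_zero fun l' _ => ?_
        rw [if_neg (fun h => h6 h.1)]
    have h4 : (∏ j : Fin (K0 + 1), ∑ l : Fin B, ∑ l' : Fin B, Φ j l l') * sv (blk (i.succAbove j0)) =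
        (Bb (blk i) : ℝ) ^ 2 * (Bb (blk (i.succAbove j0)) : ℝ) ^ 2 *
          ∏ j : Fin K0, sv (blk (i.succAbove j)) := by
      rw [Fin.prod_univ_succAbove _ i, hΦ1 i (Or.inl rfl),
        ← Finset.mul_prod_erase univ (fun j => ∑ l : Fin B, ∑ l' : Fin B, Φ (i.succAbove j) l l')
          (Finset.mem_univ j0), hΦ1 _ (Or.inr rfl),
        ← Finset.mul_prod_erase univ (fun j => sv (blk (i.succAbove j))) (Finset.mem_univ j0)]
      rw [Finset.prod_congr rfl fun x hx => hΦ2 (i.succAbove x) (Fin.succAbove_ne i x)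
        (fun h => (Finset.ne_of_mem_erase hx) (Fin.succAbove_right_injective h))]
      ring
    calc _ ≤ (∏ j : Fin (K0 + 1), ∑ l : Fin B, ∑ l' : Fin B, Φ j l l') *
          sv (blk (i.succAbove j0)) := by
          apply mul_le_mul_of_nonneg_right _ (hsv0 _).le
          rw [← h3]
          exact h1
      _ = _ := h4

end Pool.Agent.Y108.NP
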